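import Pool.Agent.helper17.HH.SpecB

/-!
# Row `hh:BPW` (MP_07c750, project HH): pairs with a large intersection
-/

set_option autoImplicit false

namespace Pool.Agent.HH

theorem BPW_card (A X : Finset ℤ) (hX : X ⊆ A) : (X.card : ℝ) = ∑ a ∈ A, if a ∈ X then (1 : ℝ) else 0 := by
  rw [Finset.sum_ite_mem, Finset.inter_eq_right.2 hX]
  simp

theorem BPW_proof : BPW_stmt := by
  intro β A B A' hβ0 hβ1 hA
  rcases A.eq_empty_or_nonempty with rfl | hne
  · have h1 : ((B ×ˢ B).filter fun z => β ^ 2 / 2 * ((∅ : Finset ℤ).card : ℝ) ≤ ((A' z.1 ∩ A' z.2).card : ℝ)) = B ×ˢ B := by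
      refine Finset.filter_true_of_mem fun z _ => ?_
      rw [Finset.card_empty, Nat.cast_zero, mul_zero]
      positivity
    rw [h1, Finset.card_product]
    push_cast
    have h2 : β ^ 2 ≤ 1 := pow_le_one₀ hβ0 hβ1
    have h3 : (0 : ℝ) ≤ (B.card : ℝ) ^ 2 := by positivity
    nlinarith
  · have hA0 : (0 : ℝ) < A.card := by exact_mod_cast hne.card_pos
    obtain ⟨f, hf⟩ : ∃ f : ℤ → ℤ → ℝ, ∀ a I, f a I = if a ∈ A' I then (1 : ℝ) else 0 := ⟨_, fun _ _ => rfl⟩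
    have e1 : ∑ a ∈ A, (∑ I ∈ B, f a I) ^ 2 = ∑ z ∈ B ×ˢ B, ((A' z.1 ∩ A' z.2).card : ℝ) := by
      have h1 : ∀ a ∈ A, (∑ I ∈ B, f a I) ^ 2 = ∑ z ∈ B ×ˢ B, f a z.1 * f a z.2 := by
        intro a _
        rw [sq, Finset.sum_mul_sum, Finset.sum_product]
      rw [Finset.sum_congr rfl h1, Finset.sum_comm]
      refine Finset.sum_congr rfl fun z hz => ?_
      obtain ⟨hz1, hz2⟩ := Finset.mem_product.1 hz
      rw [BPW_card A (A' z.1 ∩ A' z.2) (Finset.inter_subset_left.trans (hA _ hz1).1)]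
      refine Finset.sum_congr rfl fun a _ => ?_
      rw [hf, hf]
      by_cases h2 : a ∈ A' z.1
      · by_cases h3 : a ∈ A' z.2
        · rw [if_pos h2, if_pos h3, if_pos (Finset.mem_inter.2 ⟨h2, h3⟩), one_mul]
        · rw [if_neg h3, mul_zero, if_neg fun h => h3 (Finset.mem_inter.1 h).2]
      · rw [if_neg h2, zero_mul, if_neg fun h => h2 (Finset.mem_inter.1 h).1]
    have e2 : β * A.card * B.card ≤ ∑ a ∈ A, ∑ I ∈ B, f a I := by
      rw [Finset.sum_comm]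
      calc β * A.card * B.card = ∑ _I ∈ B, β * A.card := by rw [Finset.sum_const, nsmul_eq_mul]; ring
        _ ≤ ∑ I ∈ B, ((A' I).card : ℝ) := Finset.sum_le_sum fun I hI => (hA I hI).2
        _ = _ := by
          refine Finset.sum_congr rfl fun I hI => ?_
          rw [BPW_card A (A' I) (hA I hI).1]
          exact Finset.sum_congr rfl fun a _ => (hf a I).symm
    have e3 : (∑ a ∈ A, ∑ I ∈ B, f a I) ^ 2 ≤ A.card * ∑ a ∈ A, (∑ I ∈ B, f a I) ^ 2 := sq_sum_le_card_mul_sum_sq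
    rw [e1] at e3
    obtain ⟨G, hG⟩ : ∃ G : Finset (ℤ × ℤ), G = (B ×ˢ B).filter fun z => β ^ 2 / 2 * (A.card : ℝ) ≤ ((A' z.1 ∩ A' z.2).card : ℝ) := ⟨_, rfl⟩
    rw [← hG]
    have e4 : ∑ z ∈ B ×ˢ B, ((A' z.1 ∩ A' z.2).card : ℝ) ≤ G.card * A.card + (B.card : ℝ) ^ 2 * (β ^ 2 / 2 * A.card) := by
      rw [← Finset.sum_filter_add_sum_filter_not (B ×ˢ B) (fun z => β ^ 2 / 2 * (A.card : ℝ) ≤ ((A' z.1 ∩ A' z.2).card : ℝ)), ← hG]
      refine add_le_add ?_ ?_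
      · calc ∑ z ∈ G, ((A' z.1 ∩ A' z.2).card : ℝ) ≤ ∑ _z ∈ G, (A.card : ℝ) := by
              refine Finset.sum_le_sum fun z hz => ?_
              rw [hG] at hz
              obtain ⟨hz1, hz2⟩ := Finset.mem_product.1 (Finset.mem_filter.1 hz).1
              exact_mod_cast Finset.card_le_card (Finset.inter_subset_left.trans (hA _ hz1).1)
          _ = G.card * A.card := by rw [Finset.sum_const, nsmul_eq_mul]
      · calc ∑ z ∈ (B ×ˢ B).filter (fun z => ¬ β ^ 2 / 2 * (A.card : ℝ) ≤ ((A' z.1 ∩ A' z.2).card : ℝ)), ((A' z.1 ∩ A' z.2).card : ℝ) ≤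
              ∑ _z ∈ (B ×ˢ B).filter (fun z => ¬ β ^ 2 / 2 * (A.card : ℝ) ≤ ((A' z.1 ∩ A' z.2).card : ℝ)), β ^ 2 / 2 * (A.card : ℝ) :=
              Finset.sum_le_sum fun z hz => (not_le.1 (Finset.mem_filter.1 hz).2).le
          _ = ((B ×ˢ B).filter (fun z => ¬ β ^ 2 / 2 * (A.card : ℝ) ≤ ((A' z.1 ∩ A' z.2).card : ℝ))).card * (β ^ 2 / 2 * (A.card : ℝ)) := by
              rw [Finset.sum_const, nsmul_eq_mul]
          _ ≤ (B.card : ℝ) ^ 2 * (β ^ 2 / 2 * A.card) := by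
              refine mul_le_mul_of_nonneg_right ?_ (by positivity)
              have h1 := Finset.card_filter_le (B ×ˢ B) (fun z => ¬ β ^ 2 / 2 * (A.card : ℝ) ≤ ((A' z.1 ∩ A' z.2).card : ℝ))
              rw [Finset.card_product, ← sq] at h1
              exact_mod_cast h1
    have e5 : (β * A.card * B.card) ^ 2 ≤ A.card * (G.card * A.card + (B.card : ℝ) ^ 2 * (β ^ 2 / 2 * A.card)) := by
      calc (β * A.card * B.card) ^ 2 ≤ (∑ a ∈ A, ∑ I ∈ B, f a I) ^ 2 := pow_le_pow_left₀ (by positivity) e2 2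
        _ ≤ _ := e3.trans (mul_le_mul_of_nonneg_left e4 hA0.le)
    have hA2 : (0 : ℝ) < (A.card : ℝ) ^ 2 := by positivity
    refine le_of_mul_le_mul_left ?_ hA2
    nlinarith [e5]

end Pool.Agent.HH
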